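import Mathlib

open Filter Topology Finset

namespace Pool.Agent.Results.MP_843e59_an.RealCase

theorem sort_block (d : ℕ) (g : ℕ → ℝ) : ∃ τ : ℕ → ℕ, (∀ j < d, τ j < d) ∧
    (∀ i < d, ∀ j < d, τ i = τ j → i = j) ∧ ∀ j, j + 1 < d → g (τ j) ≤ g (τ (j + 1)) := by
  let s := Tuple.sort fun i : Fin d => g i
  refine ⟨fun j => if h : j < d then s ⟨j, h⟩ else j, fun j hj => by simp [hj],
    fun i hi j hj h => ?_, fun j hj => ?_⟩
  · simp only [hi, hj, dif_pos] at h
    simpa using s.injective (Fin.ext h)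
  · have h : j < d := by omega
    simp only [hj, h, dif_pos]
    exact Tuple.monotone_sort (fun i : Fin d => g i) (show (⟨j, h⟩ : Fin d) ≤ ⟨j + 1, hj⟩ by simp)

theorem abel {𝕜 E : Type*} [CommRing 𝕜] [AddCommGroup E] [Module 𝕜 E] (ν : ℕ → 𝕜) (v : ℕ → E)
    (n : ℕ) : ∑ m ∈ range n, (ν m - ν (m + 1)) • ∑ i ∈ range (m + 1), v i =
      ∑ i ∈ range n, ν i • v i - ν n • ∑ i ∈ range n, v i := by
  induction n with
  | zero => simp
  | succ n ih =>
    rw [sum_range_succ, ih, sum_range_succ (fun i => ν i • v i), sum_range_succ v]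
    module

theorem matrix (l : ℕ → ℕ → ℝ) (K : ℝ) (hK : ∀ n i, i ≤ n → |l n i| ≤ K)
    (hl : ∀ i, Tendsto (fun n => l n i) atTop (𝓝 1)) :
    ∃ (σ : ℕ → ℕ) (N : ℕ → ℕ), Function.Injective σ ∧ Tendsto N atTop atTop ∧
      (∀ n, N n ≤ n + 1) ∧ (∀ n, (range (N n)).image σ = range (N n)) ∧
      ∀ n, ∑ m ∈ range (n + 1), |(if m < N n then l (N n - 1) (σ m) else 0) -
        if m + 1 < N n then l (N n - 1) (σ (m + 1)) else 0| ≤ 10 * (K + 1) + 2 := by
  classical
  have K0 : 0 ≤ K := (abs_nonneg _).trans (hK 0 0 le_rfl)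
  have step : ∀ A, ∃ B, A < B ∧ ∑ i ∈ range A, |l (B - 1) i - 1| ≤ 1 := fun A => by
    have : Tendsto (fun n => ∑ i ∈ range A, |l n i - 1|) atTop (𝓝 (∑ i ∈ range A, |(1 : ℝ) - 1|)) :=
      tendsto_finsetSum _ fun i _ => ((hl i).sub_const 1).abs
    simp only [sub_self, abs_zero, sum_const_zero] at this
    obtain ⟨n, h1, h2⟩ := ((this.eventually (ge_mem_nhds one_pos)).and (eventually_ge_atTop A)).exists
    exact ⟨n + 1, by omega, h1⟩
  choose nx h1 h2 using step
  let a : ℕ → ℕ := fun k => nx^[k] 0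
  have ha : ∀ k, a (k + 1) = nx (a k) := fun k => Function.iterate_succ_apply' _ _ _
  have hs : StrictMono a := strictMono_nat_of_lt_succ fun k => ha k ▸ h1 _
  have hex : ∀ i, ∃ k, i < a (k + 1) := fun i => ⟨i, hs.le_apply⟩
  let b : ℕ → ℕ := fun i => Nat.find (hex i)
  have b1 : ∀ i, i < a (b i + 1) := fun i => Nat.find_spec (hex i)
  have b2 : ∀ i k, i < a k ↔ b i < k := fun i k => by
    refine ⟨fun h => ?_, fun h => (b1 i).trans_le (hs.monotone h)⟩
    rcases k with _ | k
    · exact absurd h (Nat.not_lt_zero _)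
    · exact Nat.lt_succ_of_le (Nat.find_min' _ h)
  have b3 : ∀ i, a (b i) ≤ i := fun i => not_lt.1 fun h => lt_irrefl _ ((b2 i _).1 h)
  have b4 : ∀ i k, a k ≤ i → i < a (k + 1) → b i = k := fun i k h h' => by
    have := (b2 i _).1 h'
    have := (b2 i k).not.1 h.not_gt
    omega
  choose τ t1 t2 t3 using fun k => sort_block (a (k + 1) - a k) fun j => l (a (k + 1) - 1) (a k + j)
  let σ : ℕ → ℕ := fun i => a (b i) + τ (b i) (i - a (b i))
  have s1 : ∀ i, b (σ i) = b i := fun i => b4 _ _ (Nat.le_add_right _ _) (by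
    have := t1 (b i) (i - a (b i)) (by have := b1 i; have := b3 i; omega)
    simp only [σ]
    omega)
  have s2 : Function.Injective σ := fun i j h => by
    have e : b i = b j := by rw [← s1 i, h, s1]
    have := b1 i
    have := b1 j
    have := b3 i
    have := b3 j
    simp only [σ, e] at *
    have := t2 (b j) (i - a (b j)) (by omega) (j - a (b j)) (by omega) (by omega)
    omega
  have s3 : ∀ i k, σ i < a k ↔ i < a k := fun i k => by rw [b2, b2, s1]
  have s4 : ∀ k, (range (a k)).image σ = range (a k) := fun k =>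
    eq_of_subset_of_card_le (fun j hj => by
      obtain ⟨i, hi, rfl⟩ := mem_image.1 hj
      exact mem_range.2 ((s3 _ _).2 (mem_range.1 hi))) (by rw [card_image_of_injective _ s2])
  refine ⟨σ, fun n => a (b (n + 1)), s2, hs.tendsto_atTop.comp (tendsto_atTop.2 fun k =>
    (eventually_ge_atTop (a k)).mono fun n hn => not_lt.1 ((b2 _ k).not.1 (by omega))),
    fun n => b3 _, fun n => s4 _, fun n => ?_⟩
  beta_reduce
  generalize b (n + 1) = k
  rcases k with _ | k
  · have : a 0 = 0 := rfl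
    simp only [this, Nat.not_lt_zero, if_false, sub_self, abs_zero, sum_const_zero]
    linarith
  have hAN : a k < a (k + 1) := hs (Nat.lt_succ_self k)
  set N := a (k + 1)
  set A := a k
  let h : ℕ → ℝ := fun m => if m < A then 1 else if m < N then l (N - 1) (σ m) else 0
  let e : ℕ → ℝ := fun m => if m < A then |l (N - 1) (σ m) - 1| else 0
  have hb : ∀ m, |h m| ≤ K + 1 := fun m => by
    simp only [h]
    split_ifs with c1 c2
    · rw [abs_one]; linarith
    · exact (hK _ _ (by have := (s3 m (k + 1)).2 c2; omega)).trans (by linarith)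
    · rw [abs_zero]; linarith
  let ν : ℕ → ℝ := fun m => if m < N then l (N - 1) (σ m) else 0
  change ∑ m ∈ range (n + 1), |ν m - ν (m + 1)| ≤ _
  have he : ∀ m, |ν m - h m| ≤ e m := fun m => by
    simp only [h, e, ν]
    split_ifs with c1 c2 <;> first | omega | simp
  have hsum : ∀ M, ∑ m ∈ range M, e m ≤ 1 := fun M => by
    calc ∑ m ∈ range M, e m ≤ ∑ m ∈ range A, |l (N - 1) (σ m) - 1| := by
          rw [← sum_filter]
          exact sum_le_sum_of_subset_of_nonneg (fun m hm => mem_range.2 (mem_filter.1 hm).2)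
            fun _ _ _ => abs_nonneg _
      _ = ∑ i ∈ range A, |l (N - 1) i - 1| := by
          conv_rhs => rw [← s4 k, sum_image fun _ _ _ _ h => s2 h]
      _ ≤ 1 := by simpa only [N, ha] using h2 A
  have hm : ∀ m, |h m - h (m + 1)| ≤ h (m + 1) - h m + (if m = A - 1 then 4 * (K + 1) else 0) +
      if m = N - 1 then 4 * (K + 1) else 0 := fun m => by
    have c1 := abs_le.1 (hb m)
    have c2 := abs_le.1 (hb (m + 1))
    split_ifs with d1 d2 d2
    · rw [abs_le]; constructor <;> linarith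
    · rw [abs_le]; constructor <;> linarith
    · rw [abs_le]; constructor <;> linarith
    · have : h m ≤ h (m + 1) := by
        simp only [h]
        split_ifs with e1 e2 e3 e4 e5 e6 e7 e8 <;> try first | omega | exact le_rfl
        have p1 : b m = k := b4 _ _ (by omega) (by omega)
        have p2 : b (m + 1) = k := b4 _ _ (by omega) (by omega)
        have := t3 k (m - A) (by omega)
        simp only [σ, p1, p2]
        rwa [show m + 1 - a k = m - A + 1 by omega]
      rw [abs_sub_comm, abs_of_nonneg (by linarith)]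
      linarith
  have q1 : ∀ j, ∑ m ∈ range (n + 1), (if m = j then 4 * (K + 1) else 0) ≤ 4 * (K + 1) := fun j => by
    rw [sum_ite_eq']
    split_ifs
    · exact le_rfl
    · positivity
  have q2 : ∑ m ∈ range (n + 1), e (m + 1) ≤ 1 := by
    have := hsum (n + 2)
    rw [sum_range_succ'] at this
    have := (abs_nonneg _).trans (he 0)
    linarith
  calc _ ≤ ∑ m ∈ range (n + 1), (h (m + 1) - h m + (if m = A - 1 then 4 * (K + 1) else 0) +
        (if m = N - 1 then 4 * (K + 1) else 0) + e m + e (m + 1)) := sum_le_sum fun m _ => by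
        have c1 := abs_le.1 (he m)
        have c2 := abs_le.1 (he (m + 1))
        have c3 := abs_le.1 (hm m)
        rw [abs_le]
        constructor <;> linarith
    _ ≤ _ := by
        simp only [sum_add_distrib, sum_range_sub]
        have c1 := abs_le.1 (hb 0)
        have c2 := abs_le.1 (hb (n + 1))
        linarith [q1 (A - 1), q1 (N - 1), hsum (n + 1)]

theorem result (𝕜 : Type) [RCLike 𝕜] (E : Type) [NormedAddCommGroup E] [NormedSpace 𝕜 E]
    [CompleteSpace E] (x : ℕ → E) (f : ℕ → E →L[𝕜] 𝕜)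
    (hxf : ∀ i j : ℕ, f i (x j) = if i = j then (1 : 𝕜) else 0) (l : ℕ → ℕ → ℝ)
    (hl : ∀ y : E, Tendsto (fun n : ℕ => ∑ i ∈ Finset.range (n + 1), (l n i : 𝕜) • f i y • x i)
      atTop (𝓝 y)) :
    ∃ (σ : Equiv.Perm ℕ) (t : ℕ → ℕ → 𝕜),
      (∀ n m : ℕ, n < m → t n m = 0) ∧
      (∃ C : ℝ, ∀ n : ℕ, ∑ m ∈ Finset.range (n + 1), ‖t n m‖ ≤ C) ∧
      (∀ m : ℕ, Tendsto (fun n : ℕ => t n m) atTop (𝓝 0)) ∧
      Tendsto (fun n : ℕ => ∑ m ∈ Finset.range (n + 1), t n m) atTop (𝓝 1) ∧
      ∀ y : E, Tendsto (fun n : ℕ => ∑ m ∈ Finset.range (n + 1),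
          t n m • ∑ i ∈ Finset.range (m + 1), f (σ i) y • x (σ i)) atTop (𝓝 y) := by
  classical
  let T : ℕ → E →L[𝕜] E := fun n => ∑ i ∈ range (n + 1), (l n i : 𝕜) • (f i).smulRight (x i)
  have hT : ∀ n y, T n y = ∑ i ∈ range (n + 1), (l n i : 𝕜) • f i y • x i := fun n y => by
    simp [T]
  obtain ⟨K, hK⟩ := banach_steinhaus (g := T) fun y => by
    obtain ⟨C, hC⟩ := (hl y).norm.bddAbove_range
    exact ⟨C, fun n => hC ⟨n, by rw [hT]⟩⟩
  have hx : ∀ i, x i ≠ 0 := fun i h => by simpa [h] using hxf i i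
  have hTx : ∀ n i, i ≤ n → T n (x i) = (l n i : 𝕜) • x i := fun n i h => by
    rw [hT, sum_eq_single_of_mem i (mem_range.2 (by omega))]
    · simp [hxf]
    · intro j _ hj
      simp [hxf, hj]
  have h1 : ∀ n i, i ≤ n → |l n i| ≤ K := fun n i h => by
    have := (T n).le_of_opNorm_le (hK n) (x i)
    rw [hTx n i h, norm_smul, RCLike.norm_ofReal] at this
    exact le_of_mul_le_mul_right this (norm_pos_iff.2 (hx i))
  have h2 : ∀ i, Tendsto (fun n => l n i) atTop (𝓝 1) := fun i => by
    have a1 := (RCLike.continuous_re.tendsto _).comp (((f i).continuous.tendsto _).comp (hl (x i)))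
    rw [hxf i i, if_pos rfl, RCLike.one_re] at a1
    refine a1.congr' ((eventually_ge_atTop i).mono fun n hn => ?_)
    simp only [Function.comp, ← hT, hTx n i hn]
    simp [hxf]
  obtain ⟨σ, N, s1, s2, s3, s4, s5⟩ := matrix l K h1 h2
  have hsurj : Function.Surjective σ := fun j => by
    obtain ⟨n, hn⟩ := (s2.eventually_gt_atTop j).exists
    obtain ⟨i, -, hi⟩ := mem_image.1 ((s4 n).ge (mem_range.2 hn))
    exact ⟨i, hi⟩
  let ν : ℕ → ℕ → ℝ := fun n m => if m < N n then l (N n - 1) (σ m) else 0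
  have hN : Tendsto (fun n => N n - 1) atTop atTop := (tendsto_sub_atTop_nat 1).comp s2
  have hν : ∀ m, Tendsto (fun n => (ν n m : 𝕜)) atTop (𝓝 1) := fun m => by
    have : Tendsto (fun n => ν n m) atTop (𝓝 1) := ((h2 (σ m)).comp hN).congr'
      ((s2.eventually_gt_atTop m).mono fun n hn => by simp [ν, hn])
    simpa [Function.comp_def] using (RCLike.continuous_ofReal (K := 𝕜)).tendsto _ |>.comp this
  have hz : ∀ n m, n < m → ν n m = 0 := fun n m h => if_neg (by have := s3 n; omega)
  refine ⟨Equiv.ofBijective σ ⟨s1, hsurj⟩, fun n m => ν n m - ν n (m + 1), fun n m h => ?_,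
    ⟨10 * (K + 1) + 2, fun n => ?_⟩, fun m => ?_, ?_, fun y => ?_⟩
  · simp [hz n m h, hz n (m + 1) (by omega)]
  · simpa only [← RCLike.ofReal_sub, RCLike.norm_ofReal] using s5 n
  · simpa using (hν m).sub (hν (m + 1))
  · refine (hν 0).congr fun n => ?_
    rw [sum_range_sub' fun m => (ν n m : 𝕜), hz n _ (Nat.lt_succ_self n)]
    simp
  · refine ((hl y).comp hN).congr' ((s2.eventually_gt_atTop 0).mono fun n hn => ?_)
    simp only [Function.comp, Equiv.ofBijective_apply]
    rw [abel (fun m => (ν n m : 𝕜)), hz n _ (Nat.lt_succ_self n), Nat.sub_add_cancel hn,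
      ← sum_subset (range_subset_range.2 (s3 n)) fun i _ hi => by
        simp [ν, show ¬ i < N n by simpa using hi]]
    conv_lhs => rw [← s4 n, sum_image fun _ _ _ _ h => s1 h]
    simp only [RCLike.ofReal_zero, zero_smul, sub_zero]
    exact sum_congr rfl fun i hi => by simp [ν, mem_range.1 hi]

end Pool.Agent.Results.MP_843e59_an.RealCase
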